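import Pool.Agent.P.MP_5f07f1_co.MainB

namespace Pool.Agent.Results.MP_5f07f1_co.LowDim

open Pool.Agent.P.MP_5f07f1_co

/-- Pinned distinct distances in dimensions `5` to `9`. -/
theorem result (d : ℕ) (a : ℝ)
    (h : (d, a) ∈ ([(5, 1000 / 2649), (6, 1000 / 3097), (7, 1000 / 3543), (8, 50 / 201),
      (9, 1000 / 4509)] : List (ℕ × ℝ)))
    (ε : ℝ) (hε : 0 < ε) :
    ∃ c : ℝ, 0 < c ∧ ∀ P : Finset (EuclideanSpace ℝ (Fin d)), 2 ≤ P.card → ∃ q ∈ P,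
      c * (P.card : ℝ) ^ (a - ε) ≤ (Set.ncard {r : ℝ | ∃ x ∈ P, x ≠ q ∧ dist q x = r} : ℝ) := by
  simp only [List.mem_cons, Prod.mk.injEq, List.not_mem_nil, or_false] at h
  rcases h with h | h | h | h | h <;> obtain ⟨rfl, rfl⟩ := h <;>
    exact (pd_betaB _).pinned' (by norm_num [betaB]) (by norm_num [betaB]) hε

end Pool.Agent.Results.MP_5f07f1_co.LowDim
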