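import Pool.Agent.P.MP_5f07f1_co.ZAll

namespace Pool.Agent.Results.MP_5f07f1_co.Sharp

open Pool.Agent.P.MP_5f07f1_co

/-- Pinned distinct distances: the conjectured order `n ^ (2 / d)` in every dimension `d ≥ 500`. -/
theorem result (d : ℕ) (hd : 500 ≤ d) :
    ∃ c : ℝ, 0 < c ∧ ∀ P : Finset (EuclideanSpace ℝ (Fin d)), 2 ≤ P.card → ∃ q ∈ P,
      c * (P.card : ℝ) ^ (2 / (d : ℝ)) ≤
        (Set.ncard {r : ℝ | ∃ x ∈ P, x ≠ q ∧ dist q x = r} : ℝ) :=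
  Z.q_RES d hd

/-- The form of the conjecture: at least `c * n ^ (2 / d)` distinct distances. -/
theorem distinct (d : ℕ) (hd : 500 ≤ d) :
    ∃ c : ℝ, 0 < c ∧ ∀ P : Finset (EuclideanSpace ℝ (Fin d)), 2 ≤ P.card →
      c * (P.card : ℝ) ^ (2 / (d : ℝ)) ≤
        (Set.ncard {r : ℝ | ∃ p ∈ P, ∃ q ∈ P, p ≠ q ∧ dist p q = r} : ℝ) := by
  obtain ⟨c, hc, h⟩ := result d hd
  refine ⟨c, hc, fun P hP => ?_⟩
  obtain ⟨q, hq, h⟩ := h P hP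
  refine h.trans (Nat.cast_le.2 (Set.ncard_le_ncard ?_ ?_))
  · rintro r ⟨x, hx, h1, h2⟩
    exact ⟨q, hq, x, hx, h1.symm, h2⟩
  · refine ((P ×ˢ P).finite_toSet.image fun p => dist p.1 p.2).subset ?_
    rintro r ⟨p, hp, q, hq, -, h⟩
    exact ⟨(p, q), by simp [hp, hq], h⟩

end Pool.Agent.Results.MP_5f07f1_co.Sharp
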